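import Pool.Agent.H7.HZ.Stmts

/-! Board `hz12`, row CRS: triangles which meet a set. -/

set_option autoImplicit false

open Finset

namespace Pool.HZ7

open Pool.Agent.H23.KT Pool.Agent.H46.KW Pool.KQ Pool.GT7 Pool.GU7

theorem crs_cover {V : Type} [Fintype V] [DecidableEq V] (S T : Finset V) (hT : T.card = 3) :
    T ⊆ univ \ S ∨ T ⊆ S ∨ (∃ z ∈ S, z ∈ T ∧ T.erase z ⊆ univ \ S) ∨
      ∃ q ∈ univ \ S, q ∈ T ∧ T.erase q ⊆ S := by
  have h1 : (T ∩ S).card + (T \ S).card = T.card := card_inter_add_card_sdiff T S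
  rcases Nat.lt_or_ge 1 (T ∩ S).card with h2 | h2
  · -- at least two in S
    rcases Nat.eq_zero_or_pos (T \ S).card with h3 | h3
    · right; left
      rw [card_eq_zero, sdiff_eq_empty_iff_subset] at h3
      exact h3
    · right; right; right
      have h4 : (T \ S).card = 1 := by omega
      obtain ⟨q, hq⟩ := card_eq_one.mp h4
      have hq' : q ∈ T \ S := by rw [hq]; exact mem_singleton_self q
      rw [mem_sdiff] at hq'
      refine ⟨q, by simp [hq'.2], hq'.1, ?_⟩
      intro x hx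
      rw [mem_erase] at hx
      by_contra hxS
      have : x ∈ T \ S := by rw [mem_sdiff]; exact ⟨hx.2, hxS⟩
      rw [hq, mem_singleton] at this
      exact hx.1 this
  · rcases Nat.eq_zero_or_pos (T ∩ S).card with h3 | h3
    · left
      rw [card_eq_zero] at h3
      intro x hx
      rw [mem_sdiff]
      refine ⟨mem_univ x, fun hxS => ?_⟩
      have : x ∈ T ∩ S := mem_inter.mpr ⟨hx, hxS⟩
      rw [h3] at this
      exact absurd this (notMem_empty x)
    · right; right; left
      have h4 : (T ∩ S).card = 1 := by omega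
      obtain ⟨z, hz⟩ := card_eq_one.mp h4
      have hz' : z ∈ T ∩ S := by rw [hz]; exact mem_singleton_self z
      rw [mem_inter] at hz'
      refine ⟨z, hz'.2, hz'.1, ?_⟩
      intro x hx
      rw [mem_erase] at hx
      rw [mem_sdiff]
      refine ⟨mem_univ x, fun hxS => ?_⟩
      have : x ∈ T ∩ S := mem_inter.mpr ⟨hx.2, hxS⟩
      rw [hz, mem_singleton] at this
      exact hx.1 this

theorem crs_nb {V : Type} [DecidableEq V] (G : SimpleGraph V) {W T : Finset V} {z : V}
    (hz : z ∈ T) (hT : T.erase z ⊆ W) (hc : G.IsClique (T : Set V)) : T.erase z ⊆ nb G W z := by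
  intro x hx
  rw [mem_nb]
  refine ⟨hT hx, ?_⟩
  rw [mem_erase] at hx
  exact hc (mem_coe.2 hz) (mem_coe.2 hx.2) (Ne.symm hx.1)

theorem crs_one {V : Type} [Fintype V] [DecidableEq V] (G : SimpleGraph V) (S : Finset V) :
    kc G univ 3 ≤ kc G (univ \ S) 3 + kc G S 3 +
      ∑ z ∈ S, ((nb G (univ \ S) z).card).choose 2 + ∑ q ∈ univ \ S, kc G (nb G S q) 2 := by
  classical
  set F : V → Finset (Finset V) := fun z =>
    (clq G univ 3).filter (fun T => z ∈ T ∧ T.erase z ⊆ univ \ S) with hF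
  set F' : V → Finset (Finset V) := fun q =>
    (clq G univ 3).filter (fun T => q ∈ T ∧ T.erase q ⊆ S) with hF'
  have hcov : clq G univ 3 ⊆ ((clq G (univ \ S) 3 ∪ clq G S 3) ∪ S.biUnion F) ∪
      (univ \ S).biUnion F' := by
    intro T hT
    have hT' := (mem_clq G).1 hT
    rcases crs_cover S T hT'.2.1 with h | h | ⟨z, hzS, hz, hze⟩ | ⟨q, hqS, hq, hqe⟩
    · exact mem_union_left _ (mem_union_left _ (mem_union_left _
        ((mem_clq G).2 ⟨h, hT'.2⟩)))
    · exact mem_union_left _ (mem_union_left _ (mem_union_right _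
        ((mem_clq G).2 ⟨h, hT'.2⟩)))
    · refine mem_union_left _ (mem_union_right _ (mem_biUnion.2 ⟨z, hzS, ?_⟩))
      exact mem_filter.2 ⟨hT, hz, hze⟩
    · refine mem_union_right _ (mem_biUnion.2 ⟨q, hqS, ?_⟩)
      exact mem_filter.2 ⟨hT, hq, hqe⟩
  have h1 : ∀ z ∈ S, (F z).card ≤ ((nb G (univ \ S) z).card).choose 2 := by
    intro z _
    refine (card_le_kc G (z := z) (S := nb G (univ \ S) z) (j := 2) ?_).trans
      (kc_le_choose G _ 2)
    intro T hT
    obtain ⟨hT1, hT2, hT3⟩ := mem_filter.1 hT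
    have hT' := (mem_clq G).1 hT1
    exact ⟨hT2, crs_nb G hT2 hT3 hT'.2.2, hT'.2.1, hT'.2.2⟩
  have h2 : ∀ q ∈ univ \ S, (F' q).card ≤ kc G (nb G S q) 2 := by
    intro z _
    refine card_le_kc G (z := z) (S := nb G S z) (j := 2) ?_
    intro T hT
    obtain ⟨hT1, hT2, hT3⟩ := mem_filter.1 hT
    have hT' := (mem_clq G).1 hT1
    exact ⟨hT2, crs_nb G hT2 hT3 hT'.2.2, hT'.2.1, hT'.2.2⟩
  have h3 := card_le_card hcov
  have h4 := card_union_le ((clq G (univ \ S) 3 ∪ clq G S 3) ∪ S.biUnion F) ((univ \ S).biUnion F')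
  have h5 := card_union_le (clq G (univ \ S) 3 ∪ clq G S 3) (S.biUnion F)
  have h6 := card_union_le (clq G (univ \ S) 3) (clq G S 3)
  have h7 : (S.biUnion F).card ≤ ∑ z ∈ S, ((nb G (univ \ S) z).card).choose 2 :=
    card_biUnion_le.trans (sum_le_sum h1)
  have h8 : ((univ \ S).biUnion F').card ≤ ∑ q ∈ univ \ S, kc G (nb G S q) 2 :=
    card_biUnion_le.trans (sum_le_sum h2)
  rw [kc_eq G univ 3, kc_eq G (univ \ S) 3, kc_eq G S 3]
  omega

theorem crs_thm : CRSStmt := by
  intro V _ _ G S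
  refine ⟨crs_one G S, fun h => ?_⟩
  have h1 : ∑ z ∈ S, ((nb G (univ \ S) z).card).choose 2 = 0 := by
    refine sum_eq_zero fun z hz => ?_
    have h2 : (nb G (univ \ S) z).card ≤ 1 :=
      (single_le_sum (f := fun z => (nb G (univ \ S) z).card)
        (fun _ _ => Nat.zero_le _) hz).trans h
    exact Nat.choose_eq_zero_of_lt (by omega)
  have h2 : ∑ q ∈ univ \ S, kc G (nb G S q) 2 = 0 := by
    refine sum_eq_zero fun q hq => ?_
    refine kc_eq_zero G ?_
    by_contra hlt
    have h3 : 1 < (nb G S q).card := by omega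
    obtain ⟨x, hx, y, hy, hxy⟩ := one_lt_card.mp h3
    rw [mem_nb] at hx hy
    have hx1 : 1 ≤ (nb G (univ \ S) x).card :=
      card_pos.mpr ⟨q, (mem_nb G).2 ⟨hq, hx.2.symm⟩⟩
    have hy1 : 1 ≤ (nb G (univ \ S) y).card :=
      card_pos.mpr ⟨q, (mem_nb G).2 ⟨hq, hy.2.symm⟩⟩
    have h4 : ∑ z ∈ ({x, y} : Finset V), (nb G (univ \ S) z).card ≤
        ∑ z ∈ S, (nb G (univ \ S) z).card := by
      refine sum_le_sum_of_subset ?_
      intro z hz
      rw [mem_insert, mem_singleton] at hz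
      rcases hz with rfl | rfl
      · exact hx.1
      · exact hy.1
    rw [sum_pair hxy] at h4
    omega
  have h3 := crs_one G S
  omega

end Pool.HZ7
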